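import Mathlib

set_option autoImplicit false

/-! The numerical semigroup `⟨1675,1692,1710,2700,2850,3150,3600⟩`, listed in telescopic order. -/

namespace Pool.Agent.Rossi

open Finset

/-- the seven generators in telescopic (gluing) order -/
def g : Fin 7 → ℕ := ![2700, 3600, 3150, 1710, 2850, 1692, 1675]

/-- weight of an exponent vector -/
def wt (a : Fin 7 → ℕ) : ℕ := ∑ i, a i * g i

lemma wt_eq (a : Fin 7 → ℕ) : wt a = 2700 * a 0 + 3600 * a 1 + 3150 * a 2 + 1710 * a 3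
    + 2850 * a 4 + 1692 * a 5 + 1675 * a 6 := by
  simp [wt, g, Fin.sum_univ_succ]
  ring

lemma tot_eq (a : Fin 7 → ℕ) : ∑ i, a i = a 0 + a 1 + a 2 + a 3 + a 4 + a 5 + a 6 := by
  simp [Fin.sum_univ_succ]
  ring

lemma wt_add (a b : Fin 7 → ℕ) : wt (a + b) = wt a + wt b := by
  simp [wt_eq]; ring

lemma wt_zero : wt 0 = 0 := by simp [wt_eq]

lemma wt_single (i : Fin 7) : wt (Pi.single i 1) = g i := by
  simp [wt, Pi.single_apply, Finset.sum_ite_eq']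

/-- the semigroup -/
def Gam : AddSubmonoid ℕ where
  carrier := {n | ∃ a : Fin 7 → ℕ, wt a = n}
  zero_mem' := ⟨0, wt_zero⟩
  add_mem' := by
    rintro x y ⟨a, rfl⟩ ⟨b, rfl⟩
    exact ⟨a + b, wt_add a b⟩

lemma mem_Gam {n : ℕ} : n ∈ Gam ↔ ∃ a : Fin 7 → ℕ, wt a = n := Iff.rfl

lemma g_mem (i : Fin 7) : g i ∈ Gam := ⟨Pi.single i 1, wt_single i⟩

lemma g_pos (i : Fin 7) : 0 < g i := by
  fin_cases i <;> simp [g]

lemma g_le (i : Fin 7) : g i ≤ 3600 := by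
  fin_cases i <;> simp [g]

lemma le_g (i : Fin 7) : 1675 ≤ g i := by
  fin_cases i <;> simp [g]

lemma g_inj : Function.Injective g := by decide

lemma wt_le (a : Fin 7 → ℕ) : wt a ≤ 3600 * ∑ i, a i := by
  rw [wt_eq, tot_eq]; omega

lemma le_wt (a : Fin 7 → ℕ) : 1675 * ∑ i, a i ≤ wt a := by
  rw [wt_eq, tot_eq]; omega

/-- cofiniteness -/
lemma mem_of_large {n : ℕ} (hn : 38033 ≤ n) : n ∈ Gam := by
  obtain ⟨a6, m1, h6, e1⟩ : ∃ a m, a < 6 ∧ n = 1675 * a + 6 * m :=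
    ⟨n % 6, (n - 1675 * (n % 6)) / 6, by omega, by omega⟩
  obtain ⟨a5, m2, h5, e2⟩ : ∃ a m, a < 5 ∧ m1 = 282 * a + 5 * m :=
    ⟨3 * m1 % 5, (m1 - 282 * (3 * m1 % 5)) / 5, by omega, by omega⟩
  obtain ⟨a4, m3, h4, e3⟩ : ∃ a m, a < 3 ∧ m2 = 95 * a + 3 * m :=
    ⟨2 * m2 % 3, (m2 - 95 * (2 * m2 % 3)) / 3, by omega, by omega⟩
  obtain ⟨a3, m4, h3, e4⟩ : ∃ a m, a < 5 ∧ m3 = 19 * a + 5 * m :=
    ⟨4 * m3 % 5, (m3 - 19 * (4 * m3 % 5)) / 5, by omega, by omega⟩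
  obtain ⟨a2, m5, h2, e5⟩ : ∃ a m, a < 2 ∧ m4 = 7 * a + 2 * m :=
    ⟨m4 % 2, (m4 - 7 * (m4 % 2)) / 2, by omega, by omega⟩
  obtain ⟨a1, a0, h1, e6⟩ : ∃ a m, a < 3 ∧ m5 = 4 * a + 3 * m :=
    ⟨m5 % 3, (m5 - 4 * (m5 % 3)) / 3, by omega, by omega⟩
  refine ⟨![a0, a1, a2, a3, a4, a5, a6], ?_⟩
  rw [wt_eq]
  simp
  omega

lemma finite_compl : Set.Finite ((Gam : Set ℕ)ᶜ) := by
  refine (Set.finite_lt_nat 38033).subset ?_
  intro n hn
  by_contra h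
  exact hn (mem_of_large (by simpa using h))

/-- the irreducible elements of the semigroup -/
abbrev Irr (a : ℕ) : Prop := a ∈ Gam ∧ a ≠ 0 ∧ ∀ b ∈ Gam, ∀ c ∈ Gam, b + c = a → b = 0 ∨ c = 0

lemma small_ge (x : Fin 7 → ℕ) (h0 : wt x ≠ 0) : 1675 ≤ wt x := by
  have h1 := le_wt x
  have h2 := wt_le x
  by_contra hlt
  have : ∑ i, x i = 0 := by omega
  rw [this] at h2
  omega

lemma small_le (x : Fin 7 → ℕ) (h : wt x ≤ 1925) : wt x ≤ 1710 := by
  rw [wt_eq] at *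
  have h3 : x 3 + x 5 + x 6 ≤ 1 := by omega
  have e0 : x 0 = 0 := by omega
  have e1 : x 1 = 0 := by omega
  have e2 : x 2 = 0 := by omega
  have e4 : x 4 = 0 := by omega
  omega

lemma irr_g (i : Fin 7) : Irr (g i) := by
  refine ⟨g_mem i, (g_pos i).ne', ?_⟩
  rintro b ⟨x, rfl⟩ c ⟨y, rfl⟩ h
  by_contra hcon
  push Not at hcon
  obtain ⟨hb, hc⟩ := hcon
  have hi : g i = 2700 ∨ g i = 3600 ∨ g i = 3150 ∨ g i = 1710 ∨ g i = 2850 ∨ g i = 1692 ∨ g i = 1675 := by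
    fin_cases i <;> simp [g]
  have b1 := small_ge x hb
  have c1 := small_ge y hc
  have b2 := small_le x (by omega)
  have c2 := small_le y (by omega)
  omega

lemma exists_of_irr {a : ℕ} (h : Irr a) : ∃ i, g i = a := by
  obtain ⟨⟨x, hx⟩, h0, hirr⟩ := h
  -- some coordinate is positive
  obtain ⟨i, hi⟩ : ∃ i, 0 < x i := by
    by_contra hcon
    push Not at hcon
    apply h0
    rw [← hx, wt_eq]
    have := hcon 0; have := hcon 1; have := hcon 2; have := hcon 3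
    have := hcon 4; have := hcon 5; have := hcon 6
    omega
  refine ⟨i, ?_⟩
  have hdec : x = Pi.single i 1 + (x - Pi.single i 1) := by
    funext j
    by_cases hj : j = i
    · subst hj; simp; omega
    · simp [hj]
  have hw : g i + wt (x - Pi.single i 1) = a := by
    rw [← wt_single i, ← wt_add, ← hdec, hx]
  rcases hirr (g i) (g_mem i) (wt (x - Pi.single i 1)) ⟨_, rfl⟩ hw with h1 | h1
  · exact absurd h1 (g_pos i).ne'
  · rw [h1] at hw; simpa using hw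

/-- the index type of the frozen statement is `Fin 7` -/
noncomputable def eqv : Fin 7 ≃ {a : ℕ // a ∈ Gam ∧ a ≠ 0 ∧ ∀ b ∈ Gam, ∀ c ∈ Gam, b + c = a → b = 0 ∨ c = 0} :=
  Equiv.ofBijective (fun i => ⟨g i, irr_g i⟩)
    ⟨fun i j h => g_inj (congrArg Subtype.val h),
      fun a => by
        obtain ⟨i, hi⟩ := exists_of_irr a.2
        exact ⟨i, Subtype.ext hi⟩⟩

lemma eqv_val (i : Fin 7) : (eqv i).val = g i := rfl

end Pool.Agent.Rossi
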