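import Pool.Agent.Lib.Rossi.Basic

set_option autoImplicit false

/-! The Hilbert function via bitmasks. -/

namespace Pool.Agent.Rossi

open Finset

/-- sums of exactly `i` generators -/
def Ex (i n : ℕ) : Prop := ∃ a : Fin 7 → ℕ, ∑ l, a l = i ∧ wt a = n

lemma Ex_zero {n : ℕ} : Ex 0 n ↔ n = 0 := by
  constructor
  · rintro ⟨a, h1, h2⟩
    have := wt_le a
    rw [h1] at this
    omega
  · rintro rfl
    exact ⟨0, by simp, wt_zero⟩

lemma peel (a : Fin 7 → ℕ) (l : Fin 7) (hl : 0 < a l) :
    ∃ b : Fin 7 → ℕ, a = Pi.single l 1 + b := by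
  refine ⟨a - Pi.single l 1, ?_⟩
  funext j
  by_cases hj : j = l
  · subst hj; simp; omega
  · simp [hj]

lemma sum_single_add (l : Fin 7) (b : Fin 7 → ℕ) :
    ∑ j, (Pi.single l 1 + b : Fin 7 → ℕ) j = 1 + ∑ j, b j := by
  simp [Finset.sum_add_distrib]

lemma Ex_succ {i n : ℕ} : Ex (i + 1) n ↔ ∃ l : Fin 7, g l ≤ n ∧ Ex i (n - g l) := by
  constructor
  · rintro ⟨a, h1, h2⟩
    obtain ⟨l, hl⟩ : ∃ l, 0 < a l := by
      by_contra hcon
      push Not at hcon
      have : ∑ l, a l = 0 := Finset.sum_eq_zero (fun l _ => by have := hcon l; omega)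
      omega
    obtain ⟨b, rfl⟩ := peel a l hl
    rw [sum_single_add] at h1
    rw [wt_add, wt_single] at h2
    exact ⟨l, by omega, b, by omega, by omega⟩
  · rintro ⟨l, hl, b, h1, h2⟩
    exact ⟨Pi.single l 1 + b, by rw [sum_single_add]; omega, by rw [wt_add, wt_single]; omega⟩

lemma Ex_le {i n : ℕ} (h : Ex i n) : n ≤ 3600 * i := by
  obtain ⟨a, rfl, rfl⟩ := h
  exact wt_le a

lemma le_Ex {i n : ℕ} (h : Ex i n) : 1675 * i ≤ n := by
  obtain ⟨a, rfl, rfl⟩ := h
  exact le_wt a

/-- the frozen statement's set `jM` -/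
def JM (j : ℕ) : Set ℕ := {n : ℕ | ∃ f : Fin j → ℕ, (∀ i, f i ∈ Gam ∧ f i ≠ 0) ∧ n = ∑ i, f i}

lemma JM_fwd : ∀ (j : ℕ) {n : ℕ}, n ∈ JM j → ∃ i, j ≤ i ∧ Ex i n := by
  intro j
  induction j with
  | zero =>
    rintro n ⟨f, hf, rfl⟩
    exact ⟨0, le_rfl, by simp [Ex_zero]⟩
  | succ j ih =>
    rintro n ⟨f, hf, rfl⟩
    rw [Fin.sum_univ_succ]
    obtain ⟨i, hi, a, ha1, ha2⟩ := ih (n := ∑ i : Fin j, f i.succ) ⟨fun i => f i.succ, fun i => hf i.succ, rfl⟩
    obtain ⟨⟨b, hb⟩, h0⟩ := hf 0
    have hb1 : 1 ≤ ∑ l, b l := by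
      by_contra hcon
      have := wt_le b
      rw [hb] at this
      have h3 : ∑ l, b l = 0 := by omega
      rw [h3] at this
      omega
    refine ⟨∑ l, b l + i, by omega, b + a, ?_, ?_⟩
    · simp [Finset.sum_add_distrib, ha1]
    · rw [wt_add, hb, ha2]

lemma JM_bwd : ∀ (j : ℕ), 1 ≤ j → ∀ {i n : ℕ}, j ≤ i → Ex i n → n ∈ JM j := by
  intro j hj
  induction j, hj using Nat.le_induction with
  | base =>
    intro i n hi h
    refine ⟨fun _ => n, fun _ => ⟨?_, ?_⟩, by simp⟩
    · obtain ⟨a, _, ha⟩ := h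
      exact ⟨a, ha⟩
    · have := le_Ex h
      show n ≠ 0
      omega
  | succ j hj ih =>
    intro i n hi h
    obtain ⟨i', rfl⟩ : ∃ i', i = i' + 1 := ⟨i - 1, by omega⟩
    rw [Ex_succ] at h
    obtain ⟨l, hl, h2⟩ := h
    obtain ⟨f, hf, hsum⟩ := ih (by omega) h2
    refine ⟨Fin.cons (g l) f, ?_, ?_⟩
    · intro t
      refine Fin.cases ?_ (fun t => ?_) t
      · exact ⟨g_mem l, (g_pos l).ne'⟩
      · simpa using hf t
    · rw [Fin.sum_univ_succ]
      simp only [Fin.cons_zero, Fin.cons_succ]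
      omega

/-- one step: add a generator -/
def step (m : ℕ) : ℕ :=
  m <<< 2700 ||| m <<< 3600 ||| m <<< 3150 ||| m <<< 1710 ||| m <<< 2850 ||| m <<< 1692 ||| m <<< 1675

/-- bitmask of sums of exactly `i` generators -/
def A : ℕ → ℕ
  | 0 => 1
  | i + 1 => step (A i)

lemma testBit_A : ∀ (i n : ℕ), (A i).testBit n = true ↔ Ex i n := by
  intro i
  induction i with
  | zero =>
    intro n
    rw [Ex_zero]
    simp [A, Nat.testBit_one_eq_true_iff_self_eq_zero]
  | succ i ih =>
    intro n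
    rw [Ex_succ]
    simp only [A, step, Nat.testBit_or, Nat.testBit_shiftLeft, Bool.or_eq_true, Bool.and_eq_true,
      decide_eq_true_eq, ih]
    constructor
    · rintro ((((((h | h) | h) | h) | h) | h) | h)
      · exact ⟨0, by simpa [g] using h⟩
      · exact ⟨1, by simpa [g] using h⟩
      · exact ⟨2, by simpa [g] using h⟩
      · exact ⟨3, by simpa [g] using h⟩
      · exact ⟨4, by simpa [g] using h⟩
      · exact ⟨5, by simpa [g] using h⟩
      · exact ⟨6, by simpa [g] using h⟩
    · rintro ⟨l, hl⟩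
      fin_cases l <;> simp [g] at hl <;> simp [hl]

/-- `U i c`: bitmask of sums of exactly `t` generators with `i ≤ t < i + c` -/
def U (i : ℕ) : ℕ → ℕ
  | 0 => 0
  | c + 1 => U i c ||| A (i + c)

lemma testBit_U (i : ℕ) : ∀ (c n : ℕ), (U i c).testBit n = true ↔ ∃ t, i ≤ t ∧ t < i + c ∧ Ex t n := by
  intro c
  induction c with
  | zero =>
    intro n
    simp only [U, Nat.zero_testBit, Bool.false_eq_true, false_iff]
    rintro ⟨t, h1, h2, _⟩
    omega
  | succ c ih =>
    intro n
    simp only [U, Nat.testBit_or, Bool.or_eq_true, ih, testBit_A]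
    constructor
    · rintro (⟨t, h1, h2, h3⟩ | h)
      · exact ⟨t, h1, by omega, h3⟩
      · exact ⟨i + c, by omega, by omega, h⟩
    · rintro ⟨t, h1, h2, h3⟩
      by_cases ht : t = i + c
      · subst ht; exact Or.inr h3
      · exact Or.inl ⟨t, h1, by omega, h3⟩

/-- population count of the lowest `2^k` bits -/
def pc : ℕ → ℕ → ℕ
  | 0, m => m % 2
  | k + 1, m => bif Nat.beq m 0 then 0 else pc k (m % 2 ^ 2 ^ k) + pc k (m / 2 ^ 2 ^ k)

lemma pc_spec : ∀ (k m : ℕ), ((Finset.range (2 ^ k)).filter (fun i => m.testBit i = true)).card = pc k m := by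
  intro k
  induction k with
  | zero =>
    intro m
    simp only [pow_zero, pc, Finset.range_one]
    rcases Nat.mod_two_eq_zero_or_one m with h | h
    · rw [h, Finset.card_eq_zero, Finset.filter_eq_empty_iff]
      intro x hx
      rw [Finset.mem_singleton] at hx
      subst hx
      simp [Nat.testBit_zero, h]
    · rw [h, Finset.filter_true_of_mem]
      · simp
      · intro x hx
        rw [Finset.mem_singleton] at hx
        subst hx
        simp [Nat.testBit_zero, h]
  | succ k ih =>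
    intro m
    have hsplit : (Finset.range (2 ^ (k + 1))).filter (fun i => m.testBit i = true)
        = (Finset.range (2 ^ k)).filter (fun i => (m % 2 ^ 2 ^ k).testBit i = true) ∪
          ((Finset.range (2 ^ k)).filter (fun i => (m / 2 ^ 2 ^ k).testBit i = true)).map
            (addRightEmbedding (2 ^ k)) := by
      ext i
      simp only [Finset.mem_filter, Finset.mem_range, Finset.mem_union, Finset.mem_map,
        addRightEmbedding_apply, Nat.testBit_mod_two_pow, Nat.testBit_div_two_pow, pow_succ]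
      constructor
      · rintro ⟨h1, h2⟩
        by_cases hi : i < 2 ^ k
        · left; simp [hi, h2]
        · right
          refine ⟨i - 2 ^ k, ⟨by omega, ?_⟩, by omega⟩
          rw [show i - 2 ^ k + 2 ^ k = i by omega]
          exact h2
      · rintro (⟨h1, h2⟩ | ⟨j, ⟨h1, h2⟩, rfl⟩)
        · simp [h1] at h2
          exact ⟨by omega, h2⟩
        · exact ⟨by omega, by simpa [Nat.add_comm] using h2⟩
    rw [hsplit, Finset.card_union_of_disjoint, Finset.card_map, ih, ih]
    · simp only [pc]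
      by_cases hm : m = 0
      · subst hm
        have h0 : ∀ k, pc k 0 = 0 := by
          intro k
          cases k <;> simp [pc]
        simp [h0]
      · have : Nat.beq m 0 = false := by
          cases h : Nat.beq m 0
          · rfl
          · exact absurd (Nat.eq_of_beq_eq_true h) hm
        rw [this]
        rfl
    · rw [Finset.disjoint_left]
      intro x hx hx2
      simp only [Finset.mem_filter, Finset.mem_range, Finset.mem_map, addRightEmbedding_apply] at hx hx2
      obtain ⟨j, _, hj⟩ := hx2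
      omega

/-- the bitmask of elements of order exactly `j` -/
def D (j c : ℕ) : ℕ := A j ^^^ (A j &&& U (j + 1) c)

lemma testBit_D (j c n : ℕ) (hc : 3600 * j < 1675 * (j + 1 + c)) (hj : 1 ≤ j) :
    (D j c).testBit n = true ↔ n ∈ JM j \ JM (j + 1) := by
  have h1 : (D j c).testBit n = true ↔ (A j).testBit n = true ∧ ¬ (U (j + 1) c).testBit n = true := by
    simp only [D, Nat.testBit_xor, Nat.testBit_and]
    cases (A j).testBit n <;> cases (U (j + 1) c).testBit n <;> simp
  rw [h1, testBit_A, testBit_U, Set.mem_sdiff]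
  constructor
  · rintro ⟨h2, h3⟩
    refine ⟨JM_bwd j hj le_rfl h2, fun h4 => h3 ?_⟩
    obtain ⟨i, hi, h5⟩ := JM_fwd (j + 1) h4
    refine ⟨i, hi, ?_, h5⟩
    have := Ex_le h2
    have := le_Ex h5
    by_contra hcon
    have : 1675 * (j + 1 + c) ≤ 1675 * i := Nat.mul_le_mul_left _ (by omega)
    omega
  · rintro ⟨h2, h3⟩
    obtain ⟨i, hi, h5⟩ := JM_fwd j h2
    have hij : i = j := by
      by_contra hcon
      exact h3 (JM_bwd (j + 1) (by omega) (by omega : j + 1 ≤ i) h5)
    subst hij
    refine ⟨h5, ?_⟩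
    rintro ⟨t, ht1, _, ht2⟩
    exact h3 (JM_bwd (i + 1) (by omega) ht1 ht2)

lemma ncard_eq (j c k : ℕ) (hc : 3600 * j < 1675 * (j + 1 + c)) (hj : 1 ≤ j) (hk : 3600 * j < 2 ^ k) :
    Set.ncard (JM j \ JM (j + 1)) = pc k (D j c) := by
  rw [← pc_spec, ← Set.ncard_coe_finset]
  congr 1
  ext n
  simp only [Finset.coe_filter, Finset.mem_range]
  rw [Set.mem_ofPred_eq, testBit_D j c n hc hj]
  constructor
  · intro h
    refine ⟨?_, h⟩
    rw [← testBit_D j c n hc hj] at h
    have h2 : (A j).testBit n = true := by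
      simp only [D, Nat.testBit_xor, Nat.testBit_and] at h
      cases h3 : (A j).testBit n
      · rw [h3] at h; simp at h
      · rfl
    have := Ex_le ((testBit_A j n).1 h2)
    omega
  · exact fun h => h.2

end Pool.Agent.Rossi
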