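import Pool.Agent.Lib.Rossi.Basic

set_option autoImplicit false

/-! The toric ideal is generated by six binomials (telescopic relations). -/

namespace Pool.Agent.Rossi

open Finset

/-- the six telescopic relations in a commutative ring -/
structure Rels {R : Type*} [CommRing R] (y : Fin 7 → R) : Prop where
  r1 : y 1 ^ 3 = y 0 ^ 4
  r2 : y 2 ^ 2 = y 0 * y 1
  r3 : y 3 ^ 5 = y 0 ^ 2 * y 2
  r4 : y 4 ^ 3 = y 0 ^ 2 * y 2
  r5 : y 5 ^ 5 = y 3 * y 1 * y 2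
  r6 : y 6 ^ 6 = y 1 ^ 2 * y 4

/-- monomial in the ring -/
def mon {R : Type*} [CommRing R] (y : Fin 7 → R) (a : Fin 7 → ℕ) : R :=
  y 0 ^ a 0 * y 1 ^ a 1 * y 2 ^ a 2 * y 3 ^ a 3 * y 4 ^ a 4 * y 5 ^ a 5 * y 6 ^ a 6

/-- normal-form exponent vectors -/
def NF (a : Fin 7 → ℕ) : Prop :=
  a 1 < 3 ∧ a 2 < 2 ∧ a 3 < 5 ∧ a 4 < 3 ∧ a 5 < 5 ∧ a 6 < 6

lemma uniq_aux (a0 a1 a2 a3 a4 a5 a6 b0 b1 b2 b3 b4 b5 b6 : ℕ)
    (ha1 : a1 < 3) (ha2 : a2 < 2) (ha3 : a3 < 5) (ha4 : a4 < 3) (ha5 : a5 < 5) (ha6 : a6 < 6)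
    (hb1 : b1 < 3) (hb2 : b2 < 2) (hb3 : b3 < 5) (hb4 : b4 < 3) (hb5 : b5 < 5) (hb6 : b6 < 6)
    (h : 2700 * a0 + 3600 * a1 + 3150 * a2 + 1710 * a3 + 2850 * a4 + 1692 * a5 + 1675 * a6
      = 2700 * b0 + 3600 * b1 + 3150 * b2 + 1710 * b3 + 2850 * b4 + 1692 * b5 + 1675 * b6) :
    a0 = b0 ∧ a1 = b1 ∧ a2 = b2 ∧ a3 = b3 ∧ a4 = b4 ∧ a5 = b5 ∧ a6 = b6 := by
  have e6 : a6 = b6 := by omega
  subst e6
  replace h : 450 * a0 + 600 * a1 + 525 * a2 + 285 * a3 + 475 * a4 + 282 * a5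
      = 450 * b0 + 600 * b1 + 525 * b2 + 285 * b3 + 475 * b4 + 282 * b5 := by omega
  have e5 : a5 = b5 := by omega
  subst e5
  replace h : 90 * a0 + 120 * a1 + 105 * a2 + 57 * a3 + 95 * a4
      = 90 * b0 + 120 * b1 + 105 * b2 + 57 * b3 + 95 * b4 := by omega
  have e4 : a4 = b4 := by omega
  subst e4
  replace h : 30 * a0 + 40 * a1 + 35 * a2 + 19 * a3
      = 30 * b0 + 40 * b1 + 35 * b2 + 19 * b3 := by omega
  have e3 : a3 = b3 := by omega
  subst e3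
  replace h : 6 * a0 + 8 * a1 + 7 * a2 = 6 * b0 + 8 * b1 + 7 * b2 := by omega
  have e2 : a2 = b2 := by omega
  subst e2
  replace h : 3 * a0 + 4 * a1 = 3 * b0 + 4 * b1 := by omega
  omega

lemma NF_unique {a b : Fin 7 → ℕ} (ha : NF a) (hb : NF b) (h : wt a = wt b) : a = b := by
  obtain ⟨a1, a2, a3, a4, a5, a6⟩ := ha
  obtain ⟨b1, b2, b3, b4, b5, b6⟩ := hb
  rw [wt_eq, wt_eq] at h
  obtain ⟨e0, e1, e2, e3, e4, e5, e6⟩ :=
    uniq_aux _ _ _ _ _ _ _ _ _ _ _ _ _ _ a1 a2 a3 a4 a5 a6 b1 b2 b3 b4 b5 b6 h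
  funext i
  fin_cases i <;> assumption

lemma pow_split {R : Type*} [CommRing R] (x : R) (n m : ℕ) :
    x ^ n = (x ^ m) ^ (n / m) * x ^ (n % m) := by
  rw [← pow_mul, ← pow_add, Nat.div_add_mod]

lemma red6 {R : Type*} [CommRing R] {y : Fin 7 → R} (h : Rels y) (a : Fin 7 → ℕ) :
    ∃ b : Fin 7 → ℕ, b 6 < 6 ∧ wt b = wt a ∧ mon y a = mon y b := by
  refine ⟨![a 0, a 1 + 2 * (a 6 / 6), a 2, a 3, a 4 + a 6 / 6, a 5, a 6 % 6], ?_, ?_, ?_⟩
  · simp; omega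
  · rw [wt_eq, wt_eq]; simp; omega
  · simp only [mon]
    rw [pow_split (y 6) (a 6) 6, h.r6]
    simp
    ring

lemma red5 {R : Type*} [CommRing R] {y : Fin 7 → R} (h : Rels y) (a : Fin 7 → ℕ) (h6 : a 6 < 6) :
    ∃ b : Fin 7 → ℕ, b 5 < 5 ∧ b 6 < 6 ∧ wt b = wt a ∧ mon y a = mon y b := by
  refine ⟨![a 0, a 1 + a 5 / 5, a 2 + a 5 / 5, a 3 + a 5 / 5, a 4, a 5 % 5, a 6], ?_, ?_, ?_, ?_⟩
  · simp; omega
  · simp; omega
  · rw [wt_eq, wt_eq]; simp; omega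
  · simp only [mon]
    rw [pow_split (y 5) (a 5) 5, h.r5]
    simp
    ring

lemma red4 {R : Type*} [CommRing R] {y : Fin 7 → R} (h : Rels y) (a : Fin 7 → ℕ) (h5 : a 5 < 5)
    (h6 : a 6 < 6) :
    ∃ b : Fin 7 → ℕ, b 4 < 3 ∧ b 5 < 5 ∧ b 6 < 6 ∧ wt b = wt a ∧ mon y a = mon y b := by
  refine ⟨![a 0 + 2 * (a 4 / 3), a 1, a 2 + a 4 / 3, a 3, a 4 % 3, a 5, a 6], ?_, ?_, ?_, ?_, ?_⟩
  · simp; omega
  · simp; omega
  · simp; omega
  · rw [wt_eq, wt_eq]; simp; omega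
  · simp only [mon]
    rw [pow_split (y 4) (a 4) 3, h.r4]
    simp
    ring

lemma red3 {R : Type*} [CommRing R] {y : Fin 7 → R} (h : Rels y) (a : Fin 7 → ℕ) (h4 : a 4 < 3)
    (h5 : a 5 < 5) (h6 : a 6 < 6) :
    ∃ b : Fin 7 → ℕ, b 3 < 5 ∧ b 4 < 3 ∧ b 5 < 5 ∧ b 6 < 6 ∧ wt b = wt a ∧ mon y a = mon y b := by
  refine ⟨![a 0 + 2 * (a 3 / 5), a 1, a 2 + a 3 / 5, a 3 % 5, a 4, a 5, a 6], ?_, ?_, ?_, ?_, ?_, ?_⟩
  · simp; omega
  · simp; omega
  · simp; omega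
  · simp; omega
  · rw [wt_eq, wt_eq]; simp; omega
  · simp only [mon]
    rw [pow_split (y 3) (a 3) 5, h.r3]
    simp
    ring

lemma red2 {R : Type*} [CommRing R] {y : Fin 7 → R} (h : Rels y) (a : Fin 7 → ℕ) (h3 : a 3 < 5)
    (h4 : a 4 < 3) (h5 : a 5 < 5) (h6 : a 6 < 6) :
    ∃ b : Fin 7 → ℕ, b 2 < 2 ∧ b 3 < 5 ∧ b 4 < 3 ∧ b 5 < 5 ∧ b 6 < 6 ∧ wt b = wt a ∧
      mon y a = mon y b := by
  refine ⟨![a 0 + a 2 / 2, a 1 + a 2 / 2, a 2 % 2, a 3, a 4, a 5, a 6], ?_, ?_, ?_, ?_, ?_, ?_, ?_⟩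
  · simp; omega
  · simp; omega
  · simp; omega
  · simp; omega
  · simp; omega
  · rw [wt_eq, wt_eq]; simp; omega
  · simp only [mon]
    rw [pow_split (y 2) (a 2) 2, h.r2]
    simp
    ring

lemma red1 {R : Type*} [CommRing R] {y : Fin 7 → R} (h : Rels y) (a : Fin 7 → ℕ) (h2 : a 2 < 2)
    (h3 : a 3 < 5) (h4 : a 4 < 3) (h5 : a 5 < 5) (h6 : a 6 < 6) :
    ∃ b : Fin 7 → ℕ, NF b ∧ wt b = wt a ∧ mon y a = mon y b := by
  refine ⟨![a 0 + 4 * (a 1 / 3), a 1 % 3, a 2, a 3, a 4, a 5, a 6], ?_, ?_, ?_⟩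
  · simp [NF]; omega
  · rw [wt_eq, wt_eq]; simp; omega
  · simp only [mon]
    rw [pow_split (y 1) (a 1) 3, h.r1]
    simp
    ring

lemma exists_NF {R : Type*} [CommRing R] {y : Fin 7 → R} (h : Rels y) (a : Fin 7 → ℕ) :
    ∃ b : Fin 7 → ℕ, NF b ∧ wt b = wt a ∧ mon y a = mon y b := by
  obtain ⟨b, b6, w1, m1⟩ := red6 h a
  obtain ⟨c, c5, c6, w2, m2⟩ := red5 h b b6
  obtain ⟨d, d4, d5, d6, w3, m3⟩ := red4 h c c5 c6
  obtain ⟨e, e3, e4, e5, e6, w4, m4⟩ := red3 h d d4 d5 d6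
  obtain ⟨f, f2, f3, f4, f5, f6, w5, m5⟩ := red2 h e e3 e4 e5 e6
  obtain ⟨z, hz, w6, m6⟩ := red1 h f f2 f3 f4 f5 f6
  exact ⟨z, hz, by rw [w6, w5, w4, w3, w2, w1], by rw [m1, m2, m3, m4, m5, m6]⟩

lemma mon_eq_of_wt {R : Type*} [CommRing R] {y : Fin 7 → R} (h : Rels y) {a b : Fin 7 → ℕ}
    (hw : wt a = wt b) : mon y a = mon y b := by
  obtain ⟨c, hc, wc, mc⟩ := exists_NF h a
  obtain ⟨d, hd, wd, md⟩ := exists_NF h b
  have : c = d := NF_unique hc hd (by rw [wc, wd, hw])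
  rw [mc, md, this]

/-- the index type of the frozen statement -/
abbrev Idx : Type := {a : ℕ // a ∈ Gam ∧ a ≠ 0 ∧ ∀ b ∈ Gam, ∀ c ∈ Gam, b + c = a → b = 0 ∨ c = 0}

section toric

variable (k : Type) [Field k]

/-- the parametrisation -/
noncomputable abbrev phi : MvPolynomial Idx k →ₐ[k] Polynomial k :=
  MvPolynomial.aeval (fun a : Idx => (Polynomial.X : Polynomial k) ^ a.val)

/-- variables -/
noncomputable def Y (i : Fin 7) : MvPolynomial Idx k := MvPolynomial.X (eqv i)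

/-- the six relations -/
noncomputable def rel : Fin 6 → MvPolynomial Idx k :=
  ![Y k 1 ^ 3 - Y k 0 ^ 4, Y k 2 ^ 2 - Y k 0 * Y k 1, Y k 3 ^ 5 - Y k 0 ^ 2 * Y k 2,
    Y k 4 ^ 3 - Y k 0 ^ 2 * Y k 2, Y k 5 ^ 5 - Y k 3 * Y k 1 * Y k 2, Y k 6 ^ 6 - Y k 1 ^ 2 * Y k 4]

lemma phi_Y (i : Fin 7) : phi k (Y k i) = Polynomial.X ^ g i := by
  simp [phi, Y, eqv_val]

lemma rel_mem (i : Fin 6) : phi k (rel k i) = 0 := by
  fin_cases i <;>
    simp [rel, phi_Y, g, map_sub, map_mul, map_pow, ← pow_mul, ← pow_add]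

open Classical in
/-- the generating finset -/
noncomputable def gens : Finset (MvPolynomial Idx k) := Finset.univ.image (rel k)

lemma gens_card : (gens k).card ≤ 6 := by
  classical
  unfold gens
  exact Finset.card_image_le.trans (by simp)

lemma rels_quot : Rels (fun i => Ideal.Quotient.mk (Ideal.span (gens k : Set (MvPolynomial Idx k))) (Y k i)) := by
  have key : ∀ i : Fin 6, Ideal.Quotient.mk (Ideal.span (gens k : Set (MvPolynomial Idx k))) (rel k i) = 0 := by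
    intro i
    rw [Ideal.Quotient.eq_zero_iff_mem]
    apply Ideal.subset_span
    simp [gens]
  refine ⟨?_, ?_, ?_, ?_, ?_, ?_⟩
  · have := key 0
    simp only [rel, Matrix.cons_val_zero, map_sub, map_pow, sub_eq_zero] at this
    exact this
  · have := key 1
    simp only [rel, Matrix.cons_val_one, Matrix.cons_val_zero, map_sub, map_pow, map_mul, sub_eq_zero] at this
    exact this
  · have := key 2
    simp only [rel, Matrix.cons_val, map_sub, map_pow, map_mul, sub_eq_zero] at this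
    exact this
  · have := key 3
    simp only [rel, Matrix.cons_val, map_sub, map_pow, map_mul, sub_eq_zero] at this
    exact this
  · have := key 4
    simp only [rel, Matrix.cons_val, map_sub, map_pow, map_mul, sub_eq_zero] at this
    exact this
  · have := key 5
    simp only [rel, Matrix.cons_val, map_sub, map_pow, map_mul, sub_eq_zero] at this
    exact this

open Classical in
/-- section `t^n ↦` class of a monomial of weight `n` -/
noncomputable def sec (n : ℕ) : MvPolynomial Idx k ⧸ Ideal.span (gens k : Set (MvPolynomial Idx k)) :=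
  if h : ∃ a : Fin 7 → ℕ, wt a = n then
    mon (fun i => Ideal.Quotient.mk (Ideal.span (gens k : Set (MvPolynomial Idx k))) (Y k i)) h.choose
  else 0

lemma sec_wt (a : Fin 7 → ℕ) : sec k (wt a) =
    mon (fun i => Ideal.Quotient.mk (Ideal.span (gens k : Set (MvPolynomial Idx k))) (Y k i)) a := by
  have h : ∃ b : Fin 7 → ℕ, wt b = wt a := ⟨a, rfl⟩
  rw [sec, dif_pos h]
  exact mon_eq_of_wt (rels_quot k) h.choose_spec

/-- the linear section -/
noncomputable def psi : Polynomial k →ₗ[k] MvPolynomial Idx k ⧸ Ideal.span (gens k : Set (MvPolynomial Idx k)) :=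
  Polynomial.lsum (fun n => LinearMap.toSpanSingleton k _ (sec k n))

lemma psi_monomial (n : ℕ) (c : k) : psi k (Polynomial.monomial n c) = c • sec k n := by
  simp [psi]

lemma monomial_eq (m : Idx →₀ ℕ) (c : k) :
    MvPolynomial.monomial m c = c • mon (Y k) (fun i => m (eqv i)) := by
  classical
  have h1 : MvPolynomial.monomial m c = MvPolynomial.C c * ∏ i : Fin 7, Y k i ^ m (eqv i) := by
    rw [MvPolynomial.monomial_eq]
    congr 1
    have : Fintype Idx := Fintype.ofEquiv (Fin 7) eqv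
    rw [Finsupp.prod_fintype _ _ (by intro i; simp)]
    symm
    exact Fintype.prod_equiv eqv _ _ (fun i => rfl)
  rw [h1, MvPolynomial.smul_eq_C_mul, Fin.prod_univ_seven]
  rfl

lemma quot_eq (f : MvPolynomial Idx k) :
    Ideal.Quotient.mk (Ideal.span (gens k : Set (MvPolynomial Idx k))) f = psi k (phi k f) := by
  induction f using MvPolynomial.induction_on' with
  | monomial m c =>
    have h2 : phi k (MvPolynomial.monomial m c) = Polynomial.monomial (wt (fun i => m (eqv i))) c := by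
      rw [monomial_eq, map_smul]
      have : phi k (mon (Y k) (fun i => m (eqv i))) = Polynomial.X ^ wt (fun i => m (eqv i)) := by
        simp only [mon, map_mul, map_pow, phi_Y]
        rw [wt_eq]
        simp only [← pow_mul, ← pow_add]
        simp [g]
      rw [this, Polynomial.smul_eq_C_mul, Polynomial.C_mul_X_pow_eq_monomial]
    rw [h2, psi_monomial, sec_wt, monomial_eq]
    have h3 : ∀ x : MvPolynomial Idx k, Ideal.Quotient.mk (Ideal.span (gens k : Set (MvPolynomial Idx k))) (c • x)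
        = c • Ideal.Quotient.mk (Ideal.span (gens k : Set (MvPolynomial Idx k))) x := fun x => rfl
    rw [h3]
    simp [mon]
  | add p q hp hq => rw [map_add, map_add, map_add, hp, hq]

lemma span_eq_ker : Ideal.span (gens k : Set (MvPolynomial Idx k)) = RingHom.ker (phi k) := by
  apply le_antisymm
  · rw [Ideal.span_le]
    intro x hx
    simp only [gens, Finset.coe_image, Finset.coe_univ, Set.image_univ, Set.mem_range] at hx
    obtain ⟨i, rfl⟩ := hx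
    exact rel_mem k i
  · intro f hf
    rw [RingHom.mem_ker] at hf
    rw [← Ideal.Quotient.eq_zero_iff_mem, quot_eq, hf, map_zero]

end toric

end Pool.Agent.Rossi
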